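import Mathlib

/-!
MP_60e8bf_an: every frequently hypercyclic vector, and in fact every hypercyclic vector, has an
irregularly visiting orbit.
-/

set_option autoImplicit false

namespace Pool.Agent.Results.MP_60e8bf_an.IrregularVisits

open Filter Topology Set
open scoped Classical

/-- The proportion `#(A ∩ [0, N]) / (N + 1)`. -/
noncomputable def ratio (A : Set ℕ) (N : ℕ) : ℝ :=
  (((Finset.range (N + 1)).filter (· ∈ A)).card : ℝ) / (N + 1)

/-- The lower density of a set of natural numbers. -/
noncomputable def lowerDens (A : Set ℕ) : ℝ := liminf (ratio A) atTop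

/-- The upper density of a set of natural numbers. -/
noncomputable def upperDens (A : Set ℕ) : ℝ := limsup (ratio A) atTop

section
variable {𝕜 X : Type*} [RCLike 𝕜] [NormedAddCommGroup X] [NormedSpace 𝕜 X]

/-- The set `N_T(x, U)` of the times `n` with `T ^ n x ∈ U`. -/
def visits (T : X →L[𝕜] X) (x : X) (U : Set X) : Set ℕ := {n | (T ^ n) x ∈ U}

/-- `x` is a hypercyclic vector for `T`: the orbit of `x` is dense. -/
def Hypercyclic (T : X →L[𝕜] X) (x : X) : Prop := Dense (range fun n : ℕ => (T ^ n) x)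

/-- `x` is a frequently hypercyclic vector for `T`. -/
def FrequentlyHypercyclic (T : X →L[𝕜] X) (x : X) : Prop :=
  ∀ U : Set X, IsOpen U → U.Nonempty → 0 < lowerDens (visits T x U)

/-- The orbit of `x` is irregularly visiting. -/
def IrregularlyVisiting (T : X →L[𝕜] X) (x : X) : Prop :=
  ∃ U : Set X, IsOpen U ∧ U.Nonempty ∧ lowerDens (visits T x U) < upperDens (visits T x U)

end

theorem ratio_nonneg (A : Set ℕ) (N : ℕ) : 0 ≤ ratio A N := by
  unfold ratio; positivity

theorem ratio_le_one (A : Set ℕ) (N : ℕ) : ratio A N ≤ 1 := by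
  unfold ratio
  rw [div_le_one (by positivity)]
  have h := Finset.card_filter_le (Finset.range (N + 1)) (· ∈ A)
  rw [Finset.card_range] at h
  exact_mod_cast h

theorem bdd_above (A : Set ℕ) : IsBoundedUnder (· ≤ ·) atTop (ratio A) :=
  isBoundedUnder_of ⟨1, ratio_le_one A⟩

theorem bdd_below (A : Set ℕ) : IsBoundedUnder (· ≥ ·) atTop (ratio A) :=
  isBoundedUnder_of ⟨0, ratio_nonneg A⟩

theorem lowerDens_le {A : Set ℕ} {a : ℝ} (h : ∃ᶠ N in atTop, ratio A N ≤ a) : lowerDens A ≤ a :=
  liminf_le_of_frequently_le h (bdd_below A)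

theorem le_upperDens {A : Set ℕ} {a : ℝ} (h : ∃ᶠ N in atTop, a ≤ ratio A N) : a ≤ upperDens A :=
  le_limsup_of_frequently_le h (bdd_above A)

theorem upperDens_le_one (A : Set ℕ) : upperDens A ≤ 1 :=
  limsup_le_of_le (bdd_below A).isCoboundedUnder_le (Eventually.of_forall (ratio_le_one A))

/-- Blocks of integers between consecutive factorials. -/
def S : Set ℕ := {n | ∃ k : ℕ, (2 * k).factorial ≤ n ∧ n < (2 * k + 1).factorial}

theorem S_large (k : ℕ) : 1 - 1 / (2 * k + 1 : ℝ) ≤ ratio S ((2 * k + 1).factorial - 1) := by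
  unfold ratio
  have h0 : 0 < (2 * k + 1).factorial := Nat.factorial_pos _
  have h1 : (2 * k + 1).factorial - 1 + 1 = (2 * k + 1).factorial := by omega
  have h2 : (((2 * k + 1).factorial - 1 : ℕ) : ℝ) + 1 = (2 * k + 1).factorial := by
    exact_mod_cast h1
  rw [h2, h1, le_div_iff₀ (by exact_mod_cast h0)]
  have h3 : Finset.Ico (2 * k).factorial (2 * k + 1).factorial ⊆
      (Finset.range (2 * k + 1).factorial).filter (· ∈ S) := by
    intro n hn
    rw [Finset.mem_Ico] at hn
    rw [Finset.mem_filter, Finset.mem_range]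
    exact ⟨hn.2, k, hn.1, hn.2⟩
  have h4 := Finset.card_le_card h3
  rw [Nat.card_Ico] at h4
  have h5 : ((2 * k + 1).factorial : ℝ) = (2 * k + 1) * (2 * k).factorial := by
    rw [Nat.factorial_succ]; push_cast; ring
  have h6 : (((2 * k + 1).factorial - (2 * k).factorial : ℕ) : ℝ) =
      (2 * k + 1).factorial - (2 * k).factorial := by
    rw [Nat.cast_sub (Nat.factorial_le (by omega))]
  have h7 : (((2 * k + 1).factorial - (2 * k).factorial : ℕ) : ℝ) ≤
      (((Finset.range (2 * k + 1).factorial).filter (· ∈ S)).card : ℝ) := by exact_mod_cast h4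
  rw [h6] at h7
  refine le_trans (le_of_eq ?_) h7
  rw [h5]
  field_simp

theorem S_small (k : ℕ) : ratio S ((2 * k + 2).factorial - 1) ≤ 1 / (2 * k + 2 : ℝ) := by
  unfold ratio
  have h0 : 0 < (2 * k + 2).factorial := Nat.factorial_pos _
  have h1 : (2 * k + 2).factorial - 1 + 1 = (2 * k + 2).factorial := by omega
  have h2 : (((2 * k + 2).factorial - 1 : ℕ) : ℝ) + 1 = (2 * k + 2).factorial := by
    exact_mod_cast h1
  rw [h2, h1, div_le_iff₀ (by exact_mod_cast h0)]
  have h3 : (Finset.range (2 * k + 2).factorial).filter (· ∈ S) ⊆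
      Finset.range (2 * k + 1).factorial := by
    intro n hn
    rw [Finset.mem_filter, Finset.mem_range] at hn
    rw [Finset.mem_range]
    obtain ⟨h4, l, h5, h6⟩ := hn
    have h7 : 2 * l < 2 * k + 2 := by
      by_contra h
      push Not at h
      have := Nat.factorial_le h
      omega
    exact h6.trans_le (Nat.factorial_le (by omega))
  have h4 := Finset.card_le_card h3
  rw [Finset.card_range] at h4
  have h5 : ((2 * k + 2).factorial : ℝ) = (2 * k + 2) * (2 * k + 1).factorial := by
    rw [Nat.factorial_succ]; push_cast; ring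
  rw [h5]
  have h6 : (1 : ℝ) / (2 * k + 2) * ((2 * k + 2) * (2 * k + 1).factorial) =
      (2 * k + 1).factorial := by field_simp
  rw [h6]
  exact_mod_cast h4

/-- Sets with large gaps and large least element are small. -/
theorem card_gaps (W : Finset ℕ) (L N : ℕ) (hL : 0 < L) (h1 : ∀ m ∈ W, L ≤ m ∧ m ≤ N)
    (h2 : ∀ m ∈ W, ∀ m' ∈ W, m < m' → L ≤ m' - m) : W.card ≤ N / L := by
  have h3 : W.card ≤ (Finset.Icc 1 (N / L)).card := by
    refine Finset.card_le_card_of_injOn (fun m => m / L) ?_ ?_
    · intro m hm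
      have h4 := h1 m hm
      simp only [Finset.coe_Icc, Set.mem_Icc]
      exact ⟨(Nat.one_le_div_iff hL).2 h4.1, Nat.div_le_div_right h4.2⟩
    · have key : ∀ m ∈ W, ∀ m' ∈ W, m < m' → m / L ≠ m' / L := by
        intro m hm m' hm' hlt h5
        have h6 := h2 m hm m' hm' hlt
        have h7 := Nat.div_add_mod m L
        have h8 := Nat.div_add_mod m' L
        have h9 := Nat.mod_lt m hL
        have h10 := Nat.mod_lt m' hL
        rw [h5] at h7
        omega
      intro m hm m' hm' h
      rcases lt_trichotomy m m' with h3 | h3 | h3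
      · exact absurd h (key m hm m' hm' h3)
      · exact h3
      · exact absurd h.symm (key m' hm' m hm h3)
  rwa [Nat.card_Icc, Nat.add_sub_cancel] at h3

section
variable {𝕜 X : Type*} [RCLike 𝕜] [NormedAddCommGroup X] [NormedSpace 𝕜 X]

theorem orbit_injective [Nontrivial X] {T : X →L[𝕜] X} {x : X} (hx : Hypercyclic T x) :
    Function.Injective fun n : ℕ => (T ^ n) x := by
  have key : ∀ i j : ℕ, i < j → (T ^ i) x ≠ (T ^ j) x := by
    intro i j hij h
    -- the orbit is finite
    have h1 : ∀ n : ℕ, ∃ m < j, (T ^ n) x = (T ^ m) x := by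
      intro n
      induction n using Nat.strong_induction_on with
      | _ n ih =>
        by_cases hn : n < j
        · exact ⟨n, hn, rfl⟩
        · push Not at hn
          obtain ⟨m, hm, h2⟩ := ih (n - (j - i)) (by omega)
          refine ⟨m, hm, ?_⟩
          rw [← h2]
          have h3 : n = (n - j) + j := by omega
          have h4 : n - (j - i) = (n - j) + i := by omega
          rw [h4]
          conv_lhs => rw [h3]
          rw [pow_add, pow_add, mul_apply_eq_comp, mul_apply_eq_comp, h]
    have h2 : (range fun n : ℕ => (T ^ n) x).Finite := by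
      refine ((Set.finite_Iio j).image fun m => (T ^ m) x).subset ?_
      rintro _ ⟨n, rfl⟩
      obtain ⟨m, hm, h3⟩ := h1 n
      exact ⟨m, hm, h3.symm⟩
    have h3 : (range fun n : ℕ => (T ^ n) x) = univ := by
      rw [← h2.isClosed.closure_eq]
      exact hx.closure_eq
    rw [h3] at h2
    have h4 : Infinite X := by
      obtain ⟨v, hv⟩ := exists_ne (0 : X)
      refine Infinite.of_injective (fun n : ℕ => (n : 𝕜) • v) ?_
      intro a b hab
      have h5 : ((a : 𝕜) - b) • v = 0 := by
        rw [sub_smul]; exact sub_eq_zero.2 hab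
      rcases smul_eq_zero.1 h5 with h6 | h6
      · exact_mod_cast sub_eq_zero.1 h6
      · exact absurd h6 hv
    exact Set.infinite_univ h2
  intro i j h
  rcases lt_trichotomy i j with h1 | h1 | h1
  · exact absurd h (key i j h1)
  · exact h1
  · exact absurd h.symm (key j i h1)

theorem exists_radius {T : X →L[𝕜] X} {x : X}
    (hinj : Function.Injective fun n : ℕ => (T ^ n) x) (n K : ℕ) :
    ∃ r : ℝ, 0 < r ∧
      (∀ j ∈ Finset.Icc 1 K, ∀ z ∈ Metric.ball ((T ^ n) x) r,
        (T ^ j) z ∉ Metric.ball ((T ^ n) x) r) ∧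
      (∀ j ∈ Finset.range K, j ≠ n → (T ^ j) x ∉ Metric.ball ((T ^ n) x) r) := by
  have h1 : ∀ j ∈ Finset.Icc 1 K, ∀ᶠ r in 𝓝[>] (0 : ℝ), ∀ z ∈ Metric.ball ((T ^ n) x) r,
        (T ^ j) z ∉ Metric.ball ((T ^ n) x) r := by
    intro j hj
    have hne : (T ^ j) ((T ^ n) x) ≠ (T ^ n) x := by
      rw [← mul_apply_eq_comp, ← pow_add]
      intro h
      have := hinj h
      rw [Finset.mem_Icc] at hj
      omega
    have hd : 0 < dist ((T ^ j) ((T ^ n) x)) ((T ^ n) x) := dist_pos.2 hne
    set d := dist ((T ^ j) ((T ^ n) x)) ((T ^ n) x) with hdd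
    obtain ⟨δ, hδ, h2⟩ := Metric.continuousAt_iff.1 (T ^ j).continuous.continuousAt (d / 2)
      (by positivity)
    have h3 : ∀ᶠ r in 𝓝[>] (0 : ℝ), r < min δ (d / 2) := by
      have : Iio (min δ (d / 2)) ∈ 𝓝 (0 : ℝ) := Iio_mem_nhds (by positivity)
      exact mem_nhdsWithin_of_mem_nhds this
    filter_upwards [h3] with r hr z hz hz'
    rw [Metric.mem_ball] at hz hz'
    have h4 := h2 (hz.trans (hr.trans_le (min_le_left _ _)))
    have h5 : r < d / 2 := hr.trans_le (min_le_right _ _)
    have h6 : d ≤ dist ((T ^ j) z) ((T ^ j) ((T ^ n) x)) + dist ((T ^ j) z) ((T ^ n) x) := by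
      rw [hdd]
      exact dist_triangle_left _ _ _
    linarith
  have h2 : ∀ j ∈ Finset.range K, ∀ᶠ r in 𝓝[>] (0 : ℝ), j ≠ n →
      (T ^ j) x ∉ Metric.ball ((T ^ n) x) r := by
    intro j _
    by_cases hj : j = n
    · exact Eventually.of_forall fun r h => absurd hj h
    · have hd : 0 < dist ((T ^ j) x) ((T ^ n) x) := dist_pos.2 fun h => hj (hinj h)
      have h3 : ∀ᶠ r in 𝓝[>] (0 : ℝ), r < dist ((T ^ j) x) ((T ^ n) x) :=
        mem_nhdsWithin_of_mem_nhds (Iio_mem_nhds hd)
      filter_upwards [h3] with r hr _ h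
      rw [Metric.mem_ball] at h
      linarith
  have h3 : ∀ᶠ r in 𝓝[>] (0 : ℝ), 0 < r := eventually_mem_nhdsWithin
  obtain ⟨r, h4, h5, h6⟩ := (h3.and (((Finset.Icc 1 K).eventually_all.2 h1).and
    ((Finset.range K).eventually_all.2 h2))).exists
  exact ⟨r, h4, h5, h6⟩

/-- The times at which the orbit enters a small ball around `T ^ n x`, except `n`, are rare. -/
theorem card_returns {T : X →L[𝕜] X} {x : X} {n L : ℕ} {r : ℝ} (hL : 0 < L)
    (h1 : ∀ j ∈ Finset.Icc 1 L, ∀ z ∈ Metric.ball ((T ^ n) x) r,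
      (T ^ j) z ∉ Metric.ball ((T ^ n) x) r)
    (h2 : ∀ j ∈ Finset.range L, j ≠ n → (T ^ j) x ∉ Metric.ball ((T ^ n) x) r) (N : ℕ) :
    ((Finset.range (N + 1)).filter
      (fun m => m ≠ n ∧ (T ^ m) x ∈ Metric.ball ((T ^ n) x) r)).card ≤ N / L := by
  refine card_gaps _ L N hL ?_ ?_
  · intro m hm
    rw [Finset.mem_filter, Finset.mem_range] at hm
    refine ⟨?_, by omega⟩
    by_contra h
    exact h2 m (Finset.mem_range.2 (by omega)) hm.2.1 hm.2.2
  · intro m hm m' hm' hlt
    rw [Finset.mem_filter, Finset.mem_range] at hm hm'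
    by_contra h
    have h3 := h1 (m' - m) (Finset.mem_Icc.2 ⟨by omega, by omega⟩) _ hm.2.2
    apply h3
    rw [← mul_apply_eq_comp, ← pow_add]
    have h4 : m' - m + m = m' := by omega
    rw [h4]
    exact hm'.2.2

theorem sum_geom (c N : ℕ) :
    (∑ n ∈ Finset.range (N + 1), ((N / 2 ^ (n + c) : ℕ) : ℝ)) ≤ (N + 1) * (2 * (1 / 2 : ℝ) ^ c) := by
  have h1 : ∀ n ∈ Finset.range (N + 1), ((N / 2 ^ (n + c) : ℕ) : ℝ) ≤
      (N + 1) * (1 / 2 : ℝ) ^ c * (1 / 2 : ℝ) ^ n := by
    intro n _
    refine (Nat.cast_div_le).trans ?_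
    push_cast
    rw [pow_add, one_div, inv_pow, inv_pow, div_eq_mul_inv, mul_inv]
    have h2 : (0 : ℝ) ≤ (2 ^ n)⁻¹ * (2 ^ c)⁻¹ := by positivity
    nlinarith
  refine (Finset.sum_le_sum h1).trans ?_
  rw [← Finset.mul_sum]
  have h3 : ∑ n ∈ Finset.range (N + 1), (1 / 2 : ℝ) ^ n ≤ 2 := sum_geometric_two_le _
  have h4 : (0 : ℝ) ≤ (N + 1) * (1 / 2 : ℝ) ^ c := by positivity
  nlinarith

/-- **Hypercyclic orbits are irregularly visiting**: some nonempty open set is visited along a set of
times of upper density one and arbitrarily small lower density. -/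
theorem main [Nontrivial X] {T : X →L[𝕜] X} {x : X} (hx : Hypercyclic T x) {ε : ℝ} (hε : 0 < ε) :
    ∃ U : Set X, IsOpen U ∧ U.Nonempty ∧ lowerDens (visits T x U) < ε ∧
      upperDens (visits T x U) = 1 := by
  have hinj := orbit_injective hx
  obtain ⟨c, hc⟩ : ∃ c : ℕ, 2 * (1 / 2 : ℝ) ^ c < ε / 4 := by
    obtain ⟨c, hc⟩ := exists_pow_lt_of_lt_one (show (0 : ℝ) < ε / 8 by positivity)
      (show (1 / 2 : ℝ) < 1 by norm_num)
    exact ⟨c, by linarith⟩
  choose r hr0 hr1 hr2 using fun n => exists_radius hinj n (2 ^ (n + c))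
  have hsub : ∀ n ∈ S, n ∈ visits T x (⋃ n ∈ S, Metric.ball ((T ^ n) x) (r n)) := fun n hn =>
    mem_biUnion hn (Metric.mem_ball_self (hr0 n))
  refine ⟨⋃ n ∈ S, Metric.ball ((T ^ n) x) (r n), isOpen_biUnion fun _ _ => Metric.isOpen_ball, ?_,
    ?_, ?_⟩
  · refine ⟨(T ^ 2) x, ?_⟩
    have h1 : (2 : ℕ) ∈ S := ⟨1, by decide, by decide⟩
    exact mem_biUnion h1 (Metric.mem_ball_self (hr0 2))
  · set V := visits T x (⋃ n ∈ S, Metric.ball ((T ^ n) x) (r n)) with hV
    have h1 : ∀ N : ℕ, ratio V N ≤ ratio S N + 2 * (1 / 2 : ℝ) ^ c := by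
      intro N
      have h2 : (Finset.range (N + 1)).filter (· ∈ V) ⊆ (Finset.range (N + 1)).filter (· ∈ S) ∪
          (Finset.range (N + 1)).biUnion fun n => (Finset.range (N + 1)).filter
            (fun m => m ≠ n ∧ (T ^ m) x ∈ Metric.ball ((T ^ n) x) (r n)) := by
        intro m hm
        rw [Finset.mem_filter] at hm
        obtain ⟨hm1, hm2⟩ := hm
        rw [Finset.mem_union, Finset.mem_filter]
        by_cases hmS : m ∈ S
        · exact Or.inl ⟨hm1, hmS⟩
        · right
          rw [hV, visits, mem_ofPred_eq, mem_iUnion₂] at hm2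
          obtain ⟨n, hn, hmn⟩ := hm2
          have hne : m ≠ n := fun h => hmS (h ▸ hn)
          have hnN : n < N + 1 := by
            by_contra hlt
            rw [Finset.mem_range] at hm1
            have h3 : m < 2 ^ (n + c) := by
              calc m < n := by omega
                _ ≤ n + c := by omega
                _ < 2 ^ (n + c) := Nat.lt_two_pow_self
            exact hr2 n m (Finset.mem_range.2 h3) hne hmn
          rw [Finset.mem_biUnion]
          exact ⟨n, Finset.mem_range.2 hnN, Finset.mem_filter.2 ⟨hm1, hne, hmn⟩⟩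
      have h3 : (((Finset.range (N + 1)).filter (· ∈ V)).card : ℝ) ≤
          ((Finset.range (N + 1)).filter (· ∈ S)).card +
            ∑ n ∈ Finset.range (N + 1), ((N / 2 ^ (n + c) : ℕ) : ℝ) := by
        have h4 := (Finset.card_le_card h2).trans (Finset.card_union_le _ _)
        have h5 := h4.trans (Nat.add_le_add_left (Finset.card_biUnion_le.trans
          (Finset.sum_le_sum fun n _ => card_returns (by positivity) (hr1 n) (hr2 n) N)) _)
        exact_mod_cast h5
      have h6 := h3.trans (add_le_add_right (sum_geom c N) _)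
      unfold ratio
      rw [div_add' _ _ _ (by positivity)]
      gcongr
      linarith
    have h2 : lowerDens V ≤ ε / 2 := by
      refine lowerDens_le ?_
      rw [Filter.frequently_atTop]
      intro a
      obtain ⟨k, hk⟩ := exists_nat_gt (max (a : ℝ) (4 / ε))
      have hk1 : (a : ℝ) < k := (le_max_left _ _).trans_lt hk
      have hk2 : 4 / ε < k := (le_max_right _ _).trans_lt hk
      refine ⟨(2 * k + 2).factorial - 1, ?_, ?_⟩
      · have h3 : a < k := by exact_mod_cast hk1
        have h4 := Nat.self_le_factorial (2 * k + 2)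
        omega
      · refine (h1 _).trans ?_
        have h3 := S_small k
        have h4 : 1 / (2 * k + 2 : ℝ) ≤ ε / 4 := by
          rw [div_lt_iff₀ hε] at hk2
          rw [div_le_iff₀ (by positivity)]
          nlinarith
        linarith
    linarith
  · refine le_antisymm (upperDens_le_one _) ?_
    refine le_of_forall_pos_le_add fun δ hδ => ?_
    rw [← sub_le_iff_le_add]
    refine le_upperDens ?_
    rw [Filter.frequently_atTop]
    intro a
    obtain ⟨k, hk⟩ := exists_nat_gt (max (a : ℝ) (1 / δ))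
    have hk1 : (a : ℝ) < k := (le_max_left _ _).trans_lt hk
    have hk2 : 1 / δ < k := (le_max_right _ _).trans_lt hk
    refine ⟨(2 * k + 1).factorial - 1, ?_, ?_⟩
    · have h3 : a < k := by exact_mod_cast hk1
      have h4 := Nat.self_le_factorial (2 * k + 1)
      omega
    · have h3 := S_large k
      have h4 : 1 / (2 * k + 1 : ℝ) ≤ δ := by
        rw [div_lt_iff₀ hδ] at hk2
        rw [div_le_iff₀ (by positivity)]
        nlinarith
      have h5 : ratio S ((2 * k + 1).factorial - 1) ≤
          ratio (visits T x (⋃ n ∈ S, Metric.ball ((T ^ n) x) (r n)))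
            ((2 * k + 1).factorial - 1) := by
        unfold ratio
        gcongr
        intro m hm
        exact hsub m hm
      linarith

/-- **Answer.** Let `T` be a continuous linear operator on a nonzero normed space over `ℝ` or `ℂ`.
(1) For every hypercyclic vector `x` of `T` and every `ε > 0` there is a nonempty open set `U` such
that the set of times `n` with `T ^ n x ∈ U` has lower density `< ε` and upper density `1`.
(2) Hence every frequently hypercyclic vector of `T` has an irregularly visiting orbit.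
(3) In particular every frequently hypercyclic operator has a frequently hypercyclic vector with
irregularly visiting orbit. -/
theorem result {𝕜 X : Type*} [RCLike 𝕜] [NormedAddCommGroup X] [NormedSpace 𝕜 X] [Nontrivial X]
    (T : X →L[𝕜] X) :
    (∀ x : X, Hypercyclic T x → ∀ ε : ℝ, 0 < ε → ∃ U : Set X, IsOpen U ∧ U.Nonempty ∧
      lowerDens (visits T x U) < ε ∧ upperDens (visits T x U) = 1) ∧
    (∀ x : X, FrequentlyHypercyclic T x → IrregularlyVisiting T x) ∧
    ((∃ x : X, FrequentlyHypercyclic T x) →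
      ∃ x : X, FrequentlyHypercyclic T x ∧ IrregularlyVisiting T x) := by
  have h2 : ∀ x : X, FrequentlyHypercyclic T x → IrregularlyVisiting T x := by
    intro x hx
    have h1 : Hypercyclic T x := by
      rw [Hypercyclic, dense_iff_inter_open]
      intro U hU hne
      have h3 := hx U hU hne
      by_contra h
      have h4 : visits T x U = ∅ := by
        rw [Set.eq_empty_iff_forall_notMem]
        intro n hn
        exact h ⟨_, hn, n, rfl⟩
      rw [h4] at h3
      have h5 : ratio ∅ = fun _ => (0 : ℝ) := by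
        funext N
        unfold ratio
        simp
      rw [lowerDens, h5, liminf_const] at h3
      exact lt_irrefl _ h3
    obtain ⟨U, hU, hne, h3, h4⟩ := main h1 one_pos
    exact ⟨U, hU, hne, h3.trans_eq h4.symm⟩
  exact ⟨fun x hx ε hε => main hx hε, h2, fun ⟨x, hx⟩ => ⟨x, hx, h2 x hx⟩⟩

end

end Pool.Agent.Results.MP_60e8bf_an.IrregularVisits
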